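import Pool.Agent.Helper17.DF.Geo
import Pool.Agent.Helper32.CT.EmbRing

set_option autoImplicit false

/-! DG-5b: the 33 edges of the configuration A. -/

namespace Pool.Agent.Helper17.CT
open Function

section
variable {D : Type} {M : CMap D}

lemma eaCons35 (y : D) (j : ℕ) : M.s (M.s ((M.f)^[j + 1] y)) = M.a ((M.f)^[j] y) :=
  (M.a_iter32 y j).symm

lemma eaSpoke35 (y : D) : M.s (M.s ((M.f)^[2] (M.a y))) = M.a (M.s y) := by
  change M.s (M.s (M.s (M.a (M.s (M.a (M.a y)))))) = _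
  rw [M.s3, M.a2]

lemma eaClose35 (y : D) (j : ℕ) (h : (M.f)^[j + 2] (M.a y) = M.a y) :
    M.s ((M.f)^[2] (M.a (M.f y))) = M.a ((M.f)^[j] (M.a y)) := by
  have p0 := M.a_iter32 (M.a y) j
  rw [p0]
  have p2 : M.s (M.a ((M.f)^[j + 1] (M.a y))) = M.a y := by
    rw [Function.iterate_succ_apply'] at h
    exact h
  have p3 : M.a ((M.f)^[j + 1] (M.a y)) = M.s (M.f y) := by
    apply M.s_inj32
    rw [p2]
    exact M.a_iter32 y 0
  have p4 : (M.f)^[j + 1] (M.a y) = M.a (M.s (M.f y)) := by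
    rw [← p3, M.a2]
  rw [p4]
  change M.s (M.s (M.a (M.s (M.a (M.a (M.f y)))))) = _
  rw [M.a2]

/-- The 33 edges of the configuration. -/
theorem edgesA_ok (d : D) (h6 : minimalPeriod M.f d = 6)
    (h0 : minimalPeriod M.f (M.a d) = 5)
    (hn : ∀ i, 1 ≤ i → i < 6 → minimalPeriod M.f (M.a ((M.f)^[i] d)) = 6)
    (hX : minimalPeriod M.f (M.a ((M.f)^[2] (M.a d))) = 6) :
    ∀ p ∈ edgesA, (M.s)^[p.2 % 3] (bsA M d (p.2 / 3)) = M.a ((M.s)^[p.1 % 3] (bsA M d (p.1 / 3))) := by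
  have H6 : (M.f)^[6] d = d := by
    have := iterate_minimalPeriod (f := M.f) (x := d)
    rwa [h6] at this
  have H0 : (M.f)^[3 + 2] (M.a d) = M.a d := by
    have := iterate_minimalPeriod (f := M.f) (x := M.a d)
    rwa [h0] at this
  have HN : ∀ i, 1 ≤ i → i < 6 → (M.f)^[4 + 2] (M.a ((M.f)^[i] d)) = M.a ((M.f)^[i] d) := by
    intro i hi hi'
    have := iterate_minimalPeriod (f := M.f) (x := M.a ((M.f)^[i] d))
    rwa [hn i hi hi'] at this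
  have HX : (M.f)^[6] (M.a ((M.f)^[2] (M.a d))) = M.a ((M.f)^[2] (M.a d)) := by
    have := iterate_minimalPeriod (f := M.f) (x := M.a ((M.f)^[2] (M.a d)))
    rwa [hX] at this
  -- closing edges
  have c0 := eaClose35 d 3 H0
  have c1 := eaClose35 ((M.f)^[1] d) 4 (HN 1 (by norm_num) (by norm_num))
  have c2 := eaClose35 ((M.f)^[2] d) 4 (HN 2 (by norm_num) (by norm_num))
  have c3 := eaClose35 ((M.f)^[3] d) 4 (HN 3 (by norm_num) (by norm_num))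
  have c4 := eaClose35 ((M.f)^[4] d) 4 (HN 4 (by norm_num) (by norm_num))
  have c5 := eaClose35 ((M.f)^[5] d) 4 (HN 5 (by norm_num) (by norm_num))
  have c5' : (M.f)^[4] (M.a ((M.f)^[5] d)) = M.a (M.s ((M.f)^[2] (M.a d))) := by
    have e : M.f ((M.f)^[5] d) = d := (Function.iterate_succ_apply' M.f 5 d).symm.trans H6
    rw [e] at c5
    rw [c5, M.a2]
  have hub : (M.f)^[5] d = M.a (M.s (M.s d)) := by
    have e : M.s (M.a ((M.f)^[5] d)) = d := (Function.iterate_succ_apply' M.f 5 d).symm.trans H6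
    have e2 : M.a ((M.f)^[5] d) = M.s (M.s d) := by
      apply M.s_inj32
      rw [e, M.s3]
    rw [← e2, M.a2]
  -- the face X
  have q1 : (M.f)^[1] (M.a ((M.f)^[2] (M.a d))) = M.s ((M.f)^[2] (M.a d)) := by
    change M.s (M.a (M.a ((M.f)^[2] (M.a d)))) = _
    rw [M.a2]
  have q2 : (M.f)^[2] (M.a ((M.f)^[2] (M.a d))) = M.s ((M.f)^[4] (M.a ((M.f)^[5] d))) := by
    rw [Function.iterate_succ_apply', q1, c5']
    rfl
  have q5 : (M.f)^[5] (M.a ((M.f)^[2] (M.a d))) = M.a (M.s ((M.f)^[3] (M.a d))) := by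
    have e : M.s (M.a ((M.f)^[5] (M.a ((M.f)^[2] (M.a d))))) = M.a ((M.f)^[2] (M.a d)) :=
      (Function.iterate_succ_apply' M.f 5 _).symm.trans HX
    have e2 : M.a ((M.f)^[5] (M.a ((M.f)^[2] (M.a d)))) = M.s ((M.f)^[3] (M.a d)) := by
      apply M.s_inj32
      rw [e]
      exact M.a_iter32 (M.a d) 2
    rw [← e2, M.a2]
  intro p hp
  have h : p = (0, 5) ∨ p = (1, 20) ∨ p = (2, 15) ∨ p = (3, 8) ∨ p = (4, 26) ∨ p = (6, 11) ∨
      p = (7, 35) ∨ p = (9, 14) ∨ p = (10, 44) ∨ p = (12, 17) ∨ p = (13, 53) ∨ p = (16, 62) ∨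
      p = (18, 23) ∨ p = (19, 66) ∨ p = (21, 25) ∨ p = (22, 77) ∨ p = (24, 29) ∨ p = (27, 32) ∨
      p = (30, 34) ∨ p = (33, 38) ∨ p = (36, 41) ∨ p = (39, 43) ∨ p = (42, 47) ∨ p = (45, 50) ∨
      p = (48, 52) ∨ p = (51, 56) ∨ p = (54, 59) ∨ p = (57, 61) ∨ p = (60, 65) ∨ p = (63, 68) ∨
      p = (67, 70) ∨ p = (71, 73) ∨ p = (74, 76) := by
    simpa [edgesA] using hp
  rcases h with rfl | rfl | rfl | rfl | rfl | rfl | rfl | rfl | rfl | rfl | rfl | rfl | rfl |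
    rfl | rfl | rfl | rfl | rfl | rfl | rfl | rfl | rfl | rfl | rfl | rfl | rfl | rfl | rfl |
    rfl | rfl | rfl | rfl | rfl
  · exact eaCons35 d 0
  · exact eaSpoke35 d
  · exact hub
  · exact eaCons35 d 1
  · exact eaSpoke35 ((M.f)^[1] d)
  · exact eaCons35 d 2
  · exact eaSpoke35 ((M.f)^[2] d)
  · exact eaCons35 d 3
  · exact eaSpoke35 ((M.f)^[3] d)
  · exact eaCons35 d 4
  · exact eaSpoke35 ((M.f)^[4] d)
  · exact eaSpoke35 ((M.f)^[5] d)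
  · exact eaCons35 (M.a d) 2
  · exact c5'
  · exact c0
  · change M.s (M.s (M.s ((M.f)^[5] (M.a ((M.f)^[2] (M.a d)))))) = M.a (M.s ((M.f)^[3] (M.a d)))
    rw [M.s3, q5]
  · exact eaCons35 (M.a ((M.f)^[1] d)) 2
  · exact eaCons35 (M.a ((M.f)^[1] d)) 3
  · exact c1
  · exact eaCons35 (M.a ((M.f)^[2] d)) 2
  · exact eaCons35 (M.a ((M.f)^[2] d)) 3
  · exact c2
  · exact eaCons35 (M.a ((M.f)^[3] d)) 2
  · exact eaCons35 (M.a ((M.f)^[3] d)) 3
  · exact c3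
  · exact eaCons35 (M.a ((M.f)^[4] d)) 2
  · exact eaCons35 (M.a ((M.f)^[4] d)) 3
  · exact c4
  · exact eaCons35 (M.a ((M.f)^[5] d)) 2
  · exact eaCons35 (M.a ((M.f)^[5] d)) 3
  · change M.s (M.s ((M.f)^[3] (M.a ((M.f)^[2] (M.a d))))) = M.a (M.s ((M.f)^[4] (M.a ((M.f)^[5] d))))
    rw [← q2]
    exact eaCons35 (M.a ((M.f)^[2] (M.a d))) 2
  · change M.s (M.s ((M.f)^[4] (M.a ((M.f)^[2] (M.a d))))) =
      M.a (M.s (M.s (M.s ((M.f)^[3] (M.a ((M.f)^[2] (M.a d)))))))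
    rw [M.s3]
    exact eaCons35 (M.a ((M.f)^[2] (M.a d))) 3
  · change M.s (M.s ((M.f)^[5] (M.a ((M.f)^[2] (M.a d))))) =
      M.a (M.s (M.s (M.s ((M.f)^[4] (M.a ((M.f)^[2] (M.a d)))))))
    rw [M.s3]
    exact eaCons35 (M.a ((M.f)^[2] (M.a d))) 4

end

end Pool.Agent.Helper17.CT
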